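import Mathlib
import Pool.Agent.H933R3.StackMain

set_option autoImplicit false

/-!
# If stacking all facets gives a vertex-decomposable complex, the complex is shellable

The definitions (`IsCx`, `IsFacet`, `link`, `del`, `realization`) are in
`Pool.Agent.H933R3.Defs`, those of `IsPure`, `VertexDecomposable`, `IsShelling`, `Shellable`,
`stackAll` in `Pool.Agent.H933R3.Stack`.
-/

namespace Pool.Agent.Results.MP_1611d4_co.StackedDecomposableShellable

open Finset Pool.Agent.H933R3

/-- `K` is a triangulated `d`-sphere: its geometric realization is homeomorphic to the unit sphere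
of the Euclidean space of dimension `d + 1`. -/
def IsSphere (d : ℕ) {n : ℕ} (K : Finset (Finset (Fin n))) : Prop :=
  Nonempty (realization K ≃ₜ Metric.sphere (0 : EuclideanSpace ℝ (Fin (d + 1))) 1)

section general

variable {V : Type} [DecidableEq V] {K : Finset (Finset V)}

theorem mem_stackAll {σ : Finset (V ⊕ Finset V)} : σ ∈ stackAll K ↔
    (∃ G ∈ K, ¬ IsFacet K G ∧ σ = lo (Finset V) G) ∨
      (∃ F G : Finset V, IsFacet K F ∧ G ⊂ F ∧ σ = hi F G) := by
  classical
  unfold stackAll lo hi
  simp only [mem_union, mem_image, mem_filter, mem_biUnion, mem_ssubsets]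
  constructor
  · rintro (⟨G, ⟨h1, h2⟩, rfl⟩ | ⟨F, ⟨h1, h2⟩, G, hG, rfl⟩)
    · left
      refine ⟨G, h1, h2, ?_⟩
      ext x
      simp
    · right
      refine ⟨F, G, h2, hG, ?_⟩
      ext x
      simp
  · rintro (⟨G, h1, h2, rfl⟩ | ⟨F, G, h1, h2, rfl⟩)
    · left
      refine ⟨G, ⟨h1, h2⟩, ?_⟩
      ext x
      simp
    · right
      refine ⟨F, ⟨h1.1, h1⟩, G, h2, ?_⟩
      ext x
      simp

theorem lo_mem {G : Finset V} : lo (Finset V) G ∈ stackAll K ↔ G ∈ K ∧ ¬ IsFacet K G := by
  rw [mem_stackAll]
  constructor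
  · rintro (⟨G', h1, h2, h3⟩ | ⟨F, G', h1, h2, h3⟩)
    · rw [lo_inj h3]
      exact ⟨h1, h2⟩
    · exfalso
      have : Sum.inr F ∈ lo (Finset V) G := by rw [h3]; simp
      simp at this
  · rintro ⟨h1, h2⟩
    exact Or.inl ⟨G, h1, h2, rfl⟩

theorem hi_mem {F G : Finset V} : hi F G ∈ stackAll K ↔ IsFacet K F ∧ G ⊂ F := by
  rw [mem_stackAll]
  constructor
  · rintro (⟨G', h1, h2, h3⟩ | ⟨F', G', h1, h2, h3⟩)
    · exfalso
      have : Sum.inr F ∈ lo (Finset V) G' := by rw [← h3]; simp
      simp at this
    · have hF : F = F' := by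
        have : Sum.inr F ∈ hi F' G' := by rw [← h3]; simp
        simpa using this
      have hG : G = G' := by
        ext v
        have : Sum.inl v ∈ hi F G ↔ Sum.inl v ∈ hi F' G' := by rw [h3]
        simpa using this
      rw [hF, hG]
      exact ⟨h1, h2⟩
  · rintro ⟨h1, h2⟩
    exact Or.inr ⟨F, G, h1, h2, rfl⟩

theorem singleton_inl (v : V) : ({Sum.inl v} : Finset (V ⊕ Finset V)) = lo (Finset V) {v} := by
  simp [lo]

theorem singleton_inr (F : Finset V) : ({Sum.inr F} : Finset (V ⊕ Finset V)) = hi F ∅ := by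
  simp [hi]

/-- a proper face is contained in a facet properly -/
theorem exists_ssubset_facet {G : Finset V} (hG : G ∈ K) (h : ¬ IsFacet K G) :
    ∃ F, IsFacet K F ∧ G ⊂ F := by
  obtain ⟨F, hF, hGF⟩ := exists_facet hG
  refine ⟨F, hF, hGF, fun hcon => h ?_⟩
  rwa [Subset.antisymm hGF hcon]

/-- a set of `n` elements between -/
theorem exists_between {G F : Finset V} {n : ℕ} (h : G ⊂ F) (hF : F.card = n + 1) :
    ∃ R, G ⊆ R ∧ R ⊂ F ∧ R.card = n := by
  obtain ⟨v, hv, hvG⟩ := exists_of_ssubset h
  refine ⟨F.erase v, ?_, erase_ssubset hv, ?_⟩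
  · intro u hu
    rw [mem_erase]
    refine ⟨?_, h.1 hu⟩
    rintro rfl
    exact hvG hu
  · rw [card_erase_of_mem hv, hF]
    rfl

theorem hs_stackAll {n : ℕ} (hK : IsCx K) (hn : ∀ F, IsFacet K F → F.card = n + 1) :
    HS n (fun F : Finset V => F) (stackAll K) := by
  have hle : ∀ {G : Finset V}, G ∈ K → ¬ IsFacet K G → G.card ≤ n := by
    intro G h1 h2
    obtain ⟨F, hF, hGF⟩ := exists_ssubset_facet h1 h2
    have := card_lt_card hGF
    rw [hn F hF] at this
    omega
  refine ⟨⟨?_, ?_⟩, ?_, ?_, ?_, ?_, ?_⟩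
  · have h1 : (∅ : Finset (V ⊕ Finset V)) = lo (Finset V) ∅ := by simp [lo]
    rw [h1, lo_mem]
    refine ⟨hK.1, fun h => ?_⟩
    have := hn ∅ h
    simp at this
  · intro σ hσ τ hτ
    have hform : (∃ G : Finset V, τ = lo (Finset V) G) ∨
        (∃ F G : Finset V, τ = hi F G) := by
      rcases mem_stackAll.1 hσ with ⟨G, h1, h2, rfl⟩ | ⟨F, G, h1, h2, rfl⟩
      · left
        refine ⟨G.filter (fun v => Sum.inl v ∈ τ), ?_⟩
        ext (v | F)
        · rw [inl_mem_lo, mem_filter]
          exact ⟨fun h => ⟨by simpa using hτ h, h⟩, fun h => h.2⟩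
        · rw [inr_mem_lo]
          exact ⟨fun h => by simpa using hτ h, fun h => h.elim⟩
      · by_cases hF : Sum.inr F ∈ τ
        · right
          refine ⟨F, G.filter (fun v => Sum.inl v ∈ τ), ?_⟩
          ext (v | F')
          · rw [inl_mem_hi, mem_filter]
            exact ⟨fun h => ⟨by simpa using hτ h, h⟩, fun h => h.2⟩
          · rw [inr_mem_hi]
            exact ⟨fun h => by simpa using hτ h, fun h => by rw [h]; exact hF⟩
        · left
          refine ⟨G.filter (fun v => Sum.inl v ∈ τ), ?_⟩
          ext (v | F')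
          · rw [inl_mem_lo, mem_filter]
            exact ⟨fun h => ⟨by simpa using hτ h, h⟩, fun h => h.2⟩
          · rw [inr_mem_lo]
            constructor
            · intro h
              have : F' = F := by simpa using hτ h
              rw [this] at h
              exact hF h
            · exact fun h => h.elim
    rcases mem_stackAll.1 hσ with ⟨G, h1, h2, rfl⟩ | ⟨F, G, h1, h2, rfl⟩
    · rcases hform with ⟨G', rfl⟩ | ⟨F', G', rfl⟩
      · have hsub : G' ⊆ G := fun v hv => by simpa using hτ (inl_mem_lo.2 hv)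
        rw [lo_mem]
        refine ⟨hK.2 _ h1 _ hsub, fun hf => h2 ?_⟩
        rw [← hf.2 G h1 hsub] at hf
        exact hf
      · exfalso
        have : Sum.inr F' ∈ lo (Finset V) G := hτ (by simp)
        simp at this
    · rcases hform with ⟨G', rfl⟩ | ⟨F', G', rfl⟩
      · have hsub : G' ⊆ G := fun v hv => by simpa using hτ (inl_mem_lo.2 hv)
        rw [lo_mem]
        refine ⟨hK.2 _ h1.1 _ (hsub.trans h2.1), fun hf => h2.2 ?_⟩
        rw [hf.2 F h1.1 (hsub.trans h2.1)]
        exact hsub
      · have hF : F' = F := by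
          have : Sum.inr F' ∈ hi F G := hτ (by simp)
          simpa using this
        subst hF
        have hsub : G' ⊆ G := fun v hv => by simpa using hτ (inl_mem_hi.2 hv)
        rw [hi_mem]
        exact ⟨h1, hsub.trans_ssubset h2⟩
  · intro σ hσ
    rcases mem_stackAll.1 hσ with ⟨G, h1, h2, rfl⟩ | ⟨F, G, h1, h2, rfl⟩
    · exact Or.inl ⟨G, rfl, hle h1 h2⟩
    · exact Or.inr ⟨F, G, rfl, h2⟩
  · intro F hF G hG _
    rw [singleton_inr, hi_mem] at hF
    rw [hi_mem]
    exact ⟨hF.1, hG⟩
  · intro F hF
    rw [singleton_inr, hi_mem] at hF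
    exact hn F hF.1
  · intro F F' _ _ h
    exact h
  · intro σ hσ
    have key : ∀ F G : Finset V, IsFacet K F → G ⊂ F →
        ∃ τ ∈ stackAll K, hi F G ⊆ τ ∧ τ.card = n + 1 := by
      intro F G hF hG
      obtain ⟨R, h1, h2, h3⟩ := exists_between hG (hn F hF)
      refine ⟨hi F R, hi_mem.2 ⟨hF, h2⟩, ?_, by rw [card_hi, h3]⟩
      rw [hi_subset]
      exact ⟨by simp, fun v hv => by simpa using h1 hv⟩
    rcases mem_stackAll.1 hσ with ⟨G, h1, h2, rfl⟩ | ⟨F, G, h1, h2, rfl⟩
    · obtain ⟨F, hF, hGF⟩ := exists_ssubset_facet h1 h2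
      obtain ⟨τ, h3, h4, h5⟩ := key F G hF hGF
      refine ⟨τ, h3, Subset.trans ?_ h4, h5⟩
      rw [lo_subset]
      exact fun v hv => by simpa using hv
    · exact key F G h1 h2

/-- if the stacked complex is pure and `F` is a nonempty facet of `K`, the facets of the stacked
complex have `|F|` elements -/
theorem exists_facet_stackAll {F : Finset V} (hF : IsFacet K F) (hne : F.Nonempty) :
    ∃ τ, IsFacet (stackAll K) τ ∧ τ.card = F.card := by
  obtain ⟨v, hv⟩ := hne
  have hss := erase_ssubset hv
  have hpos : 0 < F.card := card_pos.2 ⟨v, hv⟩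
  refine ⟨hi F (F.erase v), ⟨hi_mem.2 ⟨hF, hss⟩, ?_⟩, ?_⟩
  · intro τ hτ hsub
    rcases mem_stackAll.1 hτ with ⟨G, h1, h2, rfl⟩ | ⟨F', G, h1, h2, rfl⟩
    · exfalso
      have : Sum.inr F ∈ lo (Finset V) G := hsub (by simp)
      simp at this
    · have hFF : F = F' := by
        have : Sum.inr F ∈ hi F' G := hsub (by simp)
        simpa using this
      subst hFF
      have h3 : F.erase v ⊆ G := fun u hu => by
        have := hsub (inl_mem_hi.2 hu)
        simpa using this
      have h4 : F.erase v = G := by
        apply eq_of_subset_of_card_le h3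
        have := card_lt_card h2
        rw [card_erase_of_mem hv]
        omega
      rw [h4]
  · rw [card_hi, card_erase_of_mem hv]
    omega

/-- If the complex obtained from `K` by stacking all facets is vertex-decomposable, then `K` is
shellable. -/
theorem shellable_of_stackAll (hK : IsCx K) (h : VertexDecomposable (stackAll K)) :
    Shellable K := by
  classical
  by_cases he : IsFacet K ∅
  · -- `K = {∅}`
    have h0 : ∀ F, IsFacet K F ↔ F = ∅ := by
      intro F
      constructor
      · intro hF
        exact he.2 F hF.1 (empty_subset F)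
      · rintro rfl
        exact he
    refine ⟨?_, [∅], List.nodup_singleton _, ?_, ?_⟩
    · intro F G hF hG
      rw [(h0 F).1 hF, (h0 G).1 hG]
    · intro F
      rw [List.mem_singleton, h0]
    · have := (Sh.snoc [] (∅ : Finset V) Sh.nil (fun G hG => by simp at hG)).isShelling
      simpa using this
  · have hne : ∀ F, IsFacet K F → F.Nonempty := by
      intro F hF
      rw [nonempty_iff_ne_empty]
      rintro rfl
      exact he hF
    have hpure : IsPure K := by
      intro F G hF hG
      obtain ⟨τ, h1, h2⟩ := exists_facet_stackAll hF (hne F hF)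
      obtain ⟨τ', h3, h4⟩ := exists_facet_stackAll hG (hne G hG)
      rw [← h2, ← h4]
      exact h.pure τ τ' h1 h3
    obtain ⟨F0, hF0, -⟩ := exists_facet hK.1
    obtain ⟨n, hn0⟩ : ∃ n, F0.card = n + 1 :=
      ⟨F0.card - 1, by have := card_pos.2 (hne F0 hF0); omega⟩
    have hn : ∀ F, IsFacet K F → F.card = n + 1 := fun F hF => (hpure F F0 hF hF0).trans hn0
    refine ⟨hpure, ?_⟩
    rcases Nat.eq_zero_or_pos n with hz | hpos
    · -- dimension 0
      subst hz
      refine ⟨(K.filter (fun F => IsFacet K F)).toList, nodup_toList _, ?_, ?_⟩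
      · intro F
        rw [mem_toList, mem_filter]
        exact ⟨fun h => h.2, fun h => ⟨h.1, h⟩⟩
      · refine (sh_of_card_one _ (nodup_toList _) ?_).isShelling
        intro F hF
        rw [mem_toList, mem_filter] at hF
        exact hn F hF.2
    · obtain ⟨l, hnd, hmem, hsh, -⟩ :=
        main_induction h n (fun F : Finset V => F) hpos (hs_stackAll hK hn)
      refine ⟨l, hnd, ?_, hsh.isShelling⟩
      intro F
      rw [hmem]
      constructor
      · rintro ⟨F', hF', rfl, -⟩
        rw [singleton_inr, hi_mem] at hF'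
        exact hF'.1
      · intro hF
        refine ⟨F, ?_, rfl, ?_⟩
        · rw [singleton_inr, hi_mem]
          refine ⟨hF, empty_subset F, fun hcon => ?_⟩
          obtain ⟨v, hv⟩ := hne F hF
          exact notMem_empty v (hcon hv)
        · intro v hv
          rw [singleton_inl, lo_mem]
          refine ⟨hK.2 F hF.1 _ (singleton_subset_iff.2 hv), fun hcon => ?_⟩
          have := hn _ hcon
          rw [card_singleton] at this
          omega

end general

/-- (1) For every finite simplicial complex `K`: if the complex obtained from `K` by stacking all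
facets is vertex-decomposable, then `K` is (pure and) shellable.
(2) In particular there is no non-shellable triangulated sphere, of any dimension, such that
stacking all its facets gives a vertex-decomposable complex. -/
theorem result :
    (∀ (V : Type) [DecidableEq V] (K : Finset (Finset V)), IsCx K →
      VertexDecomposable (stackAll K) → Shellable K) ∧
    ¬ ∃ (d n : ℕ) (S : Finset (Finset (Fin n))), IsCx S ∧ IsSphere d S ∧ ¬ Shellable S ∧
      VertexDecomposable (stackAll S) := by
  refine ⟨fun V _ K hK h => shellable_of_stackAll hK h, ?_⟩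
  rintro ⟨d, n, S, hS, -, hn, hv⟩
  exact hn (shellable_of_stackAll hS hv)

end Pool.Agent.Results.MP_1611d4_co.StackedDecomposableShellable
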